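import Pool.Agent.P.MP_13d552_gt.H.Defs

set_option autoImplicit false

namespace Pool.Agent.P.MP_13d552_gt.H
open Filter Topology MeasureTheory Set

variable {m : ℕ}

/-- Coordinate derivative. -/
noncomputable def D (i : Fin m) (f : E m → ℝ) : E m → ℝ :=
  fun x => fderiv ℝ f x (EuclideanSpace.single i 1)

/-- Smooth away from the origin. -/
def Sm (f : E m → ℝ) : Prop := ContDiffOn ℝ (⊤ : ℕ∞) f {0}ᶜ

lemma nb {x : E m} (hx : x ≠ 0) : ({0}ᶜ : Set (E m)) ∈ 𝓝 x := isOpen_compl_singleton.mem_nhds hx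

lemma Sm.at {f : E m → ℝ} (hf : Sm f) {x : E m} (hx : x ≠ 0) : ContDiffAt ℝ (⊤ : ℕ∞) f x :=
  ContDiffOn.contDiffAt hf (nb hx)

lemma Sm.diff {f : E m → ℝ} (hf : Sm f) {x : E m} (hx : x ≠ 0) : DifferentiableAt ℝ f x :=
  (hf.at hx).differentiableAt (by simp)

lemma Sm.D {f : E m → ℝ} (hf : Sm f) (i : Fin m) : Sm (D i f) :=
  (ContDiffOn.fderiv_of_isOpen hf isOpen_compl_singleton (m := (⊤ : ℕ∞)) (by simp)).clm_apply
    contDiffOn_const

lemma Sm.mul {f g : E m → ℝ} (hf : Sm f) (hg : Sm g) : Sm (fun x => f x * g x) :=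
  ContDiffOn.mul hf hg

lemma Sm.sub {f g : E m → ℝ} (hf : Sm f) (hg : Sm g) : Sm (fun x => f x - g x) :=
  ContDiffOn.sub hf hg

lemma Sm.add {f g : E m → ℝ} (hf : Sm f) (hg : Sm g) : Sm (fun x => f x + g x) :=
  ContDiffOn.add hf hg

lemma Sm.congr {f g : E m → ℝ} (hf : Sm f) (h : ∀ x ≠ 0, g x = f x) : Sm g :=
  ContDiffOn.congr hf h

lemma sm_const (c : ℝ) : Sm (fun _ : E m => c) := contDiffOn_const

lemma sm_coord (i : Fin m) : Sm (fun x : E m => x i) :=
  (EuclideanSpace.proj (𝕜 := ℝ) i).contDiff.contDiffOn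

lemma D_congr {f g : E m → ℝ} (h : ∀ x ≠ 0, f x = g x) (i : Fin m) {x : E m} (hx : x ≠ 0) :
    D i f x = D i g x := by
  have : f =ᶠ[𝓝 x] g := Filter.eventually_of_mem (nb hx) h
  simp only [D, this.fderiv_eq]

lemma D_mul' {f g : E m → ℝ} {x : E m} (hf : DifferentiableAt ℝ f x) (hg : DifferentiableAt ℝ g x)
    (i : Fin m) : D i (fun x => f x * g x) x = D i f x * g x + f x * D i g x := by
  simp only [D, fderiv_fun_mul hf hg, ContinuousLinearMap.add_apply,
    ContinuousLinearMap.smul_apply, smul_eq_mul]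
  ring

lemma D_mul {f g : E m → ℝ} (hf : Sm f) (hg : Sm g) (i : Fin m) {x : E m} (hx : x ≠ 0) :
    D i (fun x => f x * g x) x = D i f x * g x + f x * D i g x :=
  D_mul' (hf.diff hx) (hg.diff hx) i

lemma D_add {f g : E m → ℝ} (hf : Sm f) (hg : Sm g) (i : Fin m) {x : E m} (hx : x ≠ 0) :
    D i (fun x => f x + g x) x = D i f x + D i g x := by
  simp only [D, fderiv_fun_add (hf.diff hx) (hg.diff hx), ContinuousLinearMap.add_apply]

lemma D_sub {f g : E m → ℝ} (hf : Sm f) (hg : Sm g) (i : Fin m) {x : E m} (hx : x ≠ 0) :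
    D i (fun x => f x - g x) x = D i f x - D i g x := by
  simp only [D, fderiv_fun_sub (hf.diff hx) (hg.diff hx), ContinuousLinearMap.sub_apply]

lemma D_const (c : ℝ) (i : Fin m) (x : E m) : D i (fun _ => c) x = 0 := by simp [D]

lemma D_coord (i j : Fin m) (x : E m) : D i (fun x : E m => x j) x = if j = i then 1 else 0 := by
  have : (fun x : E m => x j) = EuclideanSpace.proj (𝕜 := ℝ) j := rfl
  simp only [D, this, ContinuousLinearMap.fderiv]
  simp [Pi.single_apply]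

lemma lap_eq {f : E m → ℝ} (hf : Sm f) {x : E m} (hx : x ≠ 0) :
    Laplacian.laplacian f x = ∑ i, D i (D i f) x := by
  rw [InnerProductSpace.laplacian_eq_iteratedFDeriv_orthonormalBasis f
    (EuclideanSpace.basisFun (Fin m) ℝ)]
  refine Finset.sum_congr rfl fun i _ => ?_
  have h1 : DifferentiableAt ℝ (fderiv ℝ f) x :=
    ((ContDiffOn.fderiv_of_isOpen hf isOpen_compl_singleton (m := (⊤ : ℕ∞))
      (by simp)).contDiffAt (nb hx)).differentiableAt (by simp)
  rw [iteratedFDeriv_two_apply]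
  unfold D
  rw [fderiv_clm_apply h1 (differentiableAt_const _)]
  simp

lemma sum_coord (f : E m → ℝ) (x : E m) : ∑ i, x i * D i f x = fderiv ℝ f x x := by
  conv_rhs => rw [show fderiv ℝ f x x = fderiv ℝ f x (∑ i, x i • EuclideanSpace.single i (1 : ℝ)) by
    congr 1
    ext j
    simp [Finset.sum_apply, Pi.single_apply]]
  simp only [map_sum, map_smul, smul_eq_mul, D]

lemma euler_zero {f : E m → ℝ} (hf : Sm f) (h : ∀ t : ℝ, 0 < t → ∀ x, f (t • x) = f x) {x : E m}
    (hx : x ≠ 0) : ∑ i, x i * D i f x = 0 := by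
  rw [sum_coord]
  have h1 : HasDerivAt (fun t : ℝ => f (t • x)) (fderiv ℝ f x x) 1 := by
    have h2 : HasFDerivAt f (fderiv ℝ f x) ((1 : ℝ) • x) := by
      rw [one_smul]; exact (hf.diff hx).hasFDerivAt
    have h4 := h2.comp_hasDerivAt (1 : ℝ) ((hasDerivAt_id (1 : ℝ)).smul_const x)
    rw [one_smul] at h4
    exact h4
  have h3 : (fun t : ℝ => f (t • x)) =ᶠ[𝓝 1] fun _ => f x :=
    Filter.eventually_of_mem (lt_mem_nhds one_pos) fun t ht => h t ht x
  exact h1.unique ((hasDerivAt_const (1 : ℝ) (f x)).congr_of_eventuallyEq h3)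

lemma D_scale {f : E m → ℝ} {t c : ℝ} (h : ∀ x, f x = c * f (t • x)) (hc : c ≠ 0) (i : Fin m)
    (x : E m) : D i f x = c * t * D i f (t • x) := by
  have h1 : f = c • fun x => f (t • x) := funext h
  have h2 : D i f x = D i (c • fun x => f (t • x)) x := by rw [← h1]
  rw [h2]
  unfold D
  rw [fderiv_const_smul_of_field, Pi.smul_apply, fderiv_comp_smul]
  simp [mul_assoc]

lemma eig_all {f : E m → ℝ} (hf : Sm f) (h : ∀ t : ℝ, 0 < t → ∀ x, f (t • x) = f x) {c : ℝ}
    (hc : ∀ x, ‖x‖ = 1 → Laplacian.laplacian f x = -c * f x) {x : E m} (hx : x ≠ 0) :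
    ∑ i, D i (D i f) x = -c * f x * (‖x‖ ^ 2)⁻¹ := by
  have h0 : 0 < ‖x‖⁻¹ := inv_pos.2 (norm_pos_iff.2 hx)
  have h1 : ‖‖x‖⁻¹ • x‖ = 1 := norm_smul_inv_norm hx
  have h2 := hc _ h1
  rw [lap_eq hf (by rintro h3; simp [h3] at h1), h _ h0] at h2
  rw [← h2, Finset.sum_mul]
  refine Finset.sum_congr rfl fun i _ => ?_
  rw [D_scale (c := 1 * ‖x‖⁻¹) (t := ‖x‖⁻¹)
    (fun y => D_scale (c := 1) (fun z => by rw [h _ h0, one_mul]) one_ne_zero i y)
    (by rw [one_mul]; exact h0.ne')]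
  rw [← inv_pow]; ring

lemma D_radial {φ : ℝ → ℝ} {x : E m} {d : ℝ} (h : HasDerivAt φ d (‖x‖ ^ 2)) (i : Fin m) :
    D i (fun y : E m => φ (‖y‖ ^ 2)) x = 2 * d * x i := by
  have h1 := h.comp_hasFDerivAt x (hasStrictFDerivAt_norm_sq x).hasFDerivAt
  unfold D
  rw [show (fun y : E m => φ (‖y‖ ^ 2)) = φ ∘ fun y : E m => ‖y‖ ^ 2 from rfl, h1.fderiv]
  simp [EuclideanSpace.inner_single_right]
  ring

/-- Real powers of the squared norm. -/
noncomputable def rp (a : ℝ) (x : E m) : ℝ := (‖x‖ ^ 2) ^ a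

lemma sq_pos {x : E m} (hx : x ≠ 0) : 0 < ‖x‖ ^ 2 := pow_pos (norm_pos_iff.2 hx) 2

lemma sm_rp (a : ℝ) : Sm (rp (m := m) a) := fun _ hx =>
  ((contDiff_norm_sq ℝ).contDiffAt.rpow_const_of_ne (sq_pos hx).ne').contDiffWithinAt

lemma D_rp (a : ℝ) (i : Fin m) {x : E m} (hx : x ≠ 0) :
    D i (rp a) x = 2 * a * (rp (a - 1) x * x i) := by
  have := D_radial (φ := fun s => s ^ a) (Real.hasDerivAt_rpow_const (Or.inl (sq_pos hx).ne')) i
  unfold rp
  rw [this]; ring

lemma rp_succ (a : ℝ) {x : E m} (hx : x ≠ 0) : rp (a - 1) x * ‖x‖ ^ 2 = rp a x := by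
  unfold rp
  rw [← Real.rpow_add_one (sq_pos hx).ne', sub_add_cancel]

lemma sum_sq (x : E m) : ∑ i, x i * x i = ‖x‖ ^ 2 := by
  rw [EuclideanSpace.real_norm_sq_eq]; simp [sq]

lemma lap_rp_mul (a : ℝ) {u : E m → ℝ} (hu : Sm u) {x : E m} (hx : x ≠ 0) :
    ∑ i, D i (D i (fun y => rp a y * u y)) x = rp a x * ∑ i, D i (D i u) x
      + 4 * a * rp (a - 1) x * ∑ i, x i * D i u x
      + (2 * a * m + 4 * a * (a - 1)) * rp (a - 1) x * u x := by
  have h1 : ∀ i, D i (D i (fun y => rp a y * u y)) x = rp a x * D i (D i u) x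
      + 4 * a * rp (a - 1) x * (x i * D i u x) + 2 * a * rp (a - 1) x * u x
      + 4 * a * (a - 1) * u x * rp (a - 1 - 1) x * (x i * x i) := by
    intro i
    rw [D_congr (g := fun y => 2 * a * (rp (a - 1) y * y i) * u y + rp a y * D i u y)
      (fun y hy => by rw [D_mul (sm_rp a) hu i hy, D_rp a i hy]) i hx,
      D_add (((sm_const _).mul ((sm_rp _).mul (sm_coord i))).mul hu) ((sm_rp a).mul (hu.D i)) i hx,
      D_mul ((sm_const _).mul ((sm_rp _).mul (sm_coord i))) hu i hx,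
      D_mul (sm_const _) ((sm_rp _).mul (sm_coord i)) i hx, D_mul (sm_rp _) (sm_coord i) i hx,
      D_mul (sm_rp a) (hu.D i) i hx, D_rp _ i hx, D_rp _ i hx, D_const, D_coord, if_pos rfl]
    ring
  simp only [h1, Finset.sum_add_distrib, ← Finset.mul_sum, sum_sq, Finset.sum_const,
    Finset.card_univ, Fintype.card_fin, nsmul_eq_mul]
  rw [mul_assoc (4 * a * (a - 1) * u x), rp_succ _ hx]
  ring

/-- A radial bump. -/
noncomputable def bump : ContDiffBump (1 : ℝ) := ⟨1 / 4, 1 / 2, by norm_num, by norm_num⟩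

/-- The weight. -/
noncomputable def wt (x : E m) : ℝ := bump (‖x‖ ^ 2)

lemma wt_smooth : ContDiff ℝ (⊤ : ℕ∞) (wt (m := m)) :=
  bump.contDiff.comp (contDiff_norm_sq ℝ)

lemma wt_nonneg (x : E m) : 0 ≤ wt x := bump.nonneg

lemma wt_one {x : E m} (hx : ‖x‖ = 1) : wt x = 1 :=
  bump.one_of_mem_closedBall (by simp [hx, bump])

lemma wt_zero {x : E m} (hx : ‖x‖ < 1 / 2 ∨ 2 < ‖x‖) : wt x = 0 := by
  refine bump.zero_of_le_dist ?_
  have := norm_nonneg x
  change 1 / 2 ≤ |‖x‖ ^ 2 - 1|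
  rcases hx with h | h
  · exact le_abs.2 (Or.inr (by nlinarith))
  · exact le_abs.2 (Or.inl (by nlinarith))

lemma wt_near (K : E m → ℝ) : (fun x => wt x * K x) =ᶠ[𝓝 0] fun _ => 0 := by
  filter_upwards [Metric.ball_mem_nhds (0 : E m) (show (0 : ℝ) < 1 / 2 by norm_num)] with y hy
  rw [wt_zero (Or.inl (by simpa using hy)), zero_mul]

lemma Sm.wt {K : E m → ℝ} (hK : Sm K) : ContDiff ℝ (⊤ : ℕ∞) (fun x => wt x * K x) := by
  rw [contDiff_iff_contDiffAt]
  intro x
  by_cases hx : x = 0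
  · subst hx; exact contDiffAt_const.congr_of_eventuallyEq (wt_near K)
  · exact wt_smooth.contDiffAt.mul (hK.at hx)

lemma wt_supp (K : E m → ℝ) : HasCompactSupport (fun x => wt x * K x) :=
  HasCompactSupport.intro (isCompact_closedBall (0 : E m) 2) fun x hx => by
    rw [wt_zero (Or.inr (by simpa using hx)), zero_mul]

lemma Sm.integrable {K : E m → ℝ} (hK : Sm K) : Integrable (fun x => H.wt x * K x) :=
  hK.wt.continuous.integrable_of_hasCompactSupport (wt_supp K)

lemma D_integrable {K : E m → ℝ} (hK : Sm K) (i : Fin m) :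
    Integrable (D i fun x => wt x * K x) :=
  ((hK.wt.continuous_fderiv (by simp)).clm_apply continuous_const).integrable_of_hasCompactSupport
    ((wt_supp K).fderiv_apply ℝ _)

lemma integral_D {K : E m → ℝ} (hK : Sm K) (i : Fin m) :
    ∫ x, D i (fun x => wt x * K x) x = 0 := by
  have h := integral_mul_fderiv_eq_neg_fderiv_mul_of_integrable (μ := volume)
    (f := fun _ : E m => (1 : ℝ)) (g := fun x => wt x * K x) (v := EuclideanSpace.single i 1)
    (by simp) (by simp only [one_mul]; exact D_integrable hK i)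
    (by simpa only [one_mul] using hK.integrable) (fun _ _ => differentiableAt_const _)
    (fun x _ => hK.wt.differentiable (by simp) x)
  simpa [D] using h

/-- The weighted pairing. -/
noncomputable def B (F G : E m → ℝ) : ℝ := ∫ x, wt x * (rp (-1) x * (F x * G x))

lemma rp_neg_one (x : E m) : rp (-1) x = (‖x‖ ^ 2)⁻¹ := Real.rpow_neg_one _

lemma orth {F G : E m → ℝ} (hF : Sm F) (hG : Sm G)
    (eF : ∀ x ≠ 0, ∑ i, x i * D i F x = 0) (eG : ∀ x ≠ 0, ∑ i, x i * D i G x = 0) {a b : ℝ}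
    (lF : ∀ x ≠ 0, ∑ i, D i (D i F) x = -a * F x * (‖x‖ ^ 2)⁻¹)
    (lG : ∀ x ≠ 0, ∑ i, D i (D i G) x = -b * G x * (‖x‖ ^ 2)⁻¹) (hab : a ≠ b) : B F G = 0 := by
  have hK : ∀ i, Sm (fun x => D i F x * G x - F x * D i G x) := fun i =>
    ((hF.D i).mul hG).sub (hF.mul (hG.D i))
  have h1 : ∫ x, ∑ i, D i (fun x => wt x * (D i F x * G x - F x * D i G x)) x = 0 := by
    rw [integral_finset_sum _ fun i _ => D_integrable (hK i) i]
    exact Finset.sum_eq_zero fun i _ => integral_D (hK i) i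
  have h2 : ∀ x, ∑ i, D i (fun x => wt x * (D i F x * G x - F x * D i G x)) x
      = (b - a) * (wt x * (rp (-1) x * (F x * G x))) := by
    intro x
    by_cases hx : x = 0
    · subst hx
      rw [wt_zero (Or.inl (by simp)), zero_mul, mul_zero]
      refine Finset.sum_eq_zero fun i _ => ?_
      simp only [D, (wt_near _).fderiv_eq]
      simp
    obtain ⟨d, hd⟩ : ∃ d, HasDerivAt bump d (‖x‖ ^ 2) :=
      ⟨_, ((bump.contDiff (n := 1)).differentiable (by simp) _).hasDerivAt⟩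
    have h3 : ∀ i, D i (fun x => wt x * (D i F x * G x - F x * D i G x)) x
        = 2 * d * G x * (x i * D i F x) - 2 * d * F x * (x i * D i G x)
          + wt x * G x * D i (D i F) x - wt x * F x * D i (D i G) x := by
      intro i
      rw [D_mul wt_smooth.contDiffOn (hK i) i hx, D_sub ((hF.D i).mul hG) (hF.mul (hG.D i)) i hx,
        D_mul (hF.D i) hG i hx, D_mul hF (hG.D i) i hx,
        show D i wt x = 2 * d * x i from D_radial hd i]
      ring
    simp only [h3, Finset.sum_add_distrib, Finset.sum_sub_distrib, ← Finset.mul_sum, eF x hx,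
      eG x hx, lF x hx, lG x hx, rp_neg_one]
    ring
  simp only [h2, integral_const_mul] at h1
  exact (mul_eq_zero.1 h1).resolve_left (sub_ne_zero.2 hab.symm)

lemma B_int {F G : E m → ℝ} (hF : Sm F) (hG : Sm G) :
    Integrable fun x => wt x * (rp (-1) x * (F x * G x)) :=
  ((sm_rp _).mul (hF.mul hG)).integrable

lemma B_comm (F G : E m → ℝ) : B F G = B G F := by simp only [B, mul_comm (F _)]

lemma B_add {F G K : E m → ℝ} (hF : Sm F) (hG : Sm G) (hK : Sm K) :
    B F (G + K) = B F G + B F K := by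
  simp only [B, Pi.add_apply, mul_add]
  exact integral_add (B_int hF hG) (B_int hF hK)

lemma B_sub {F G K : E m → ℝ} (hF : Sm F) (hG : Sm G) (hK : Sm K) :
    B F (G - K) = B F G - B F K := by
  simp only [B, Pi.sub_apply, mul_sub]
  exact integral_sub (B_int hF hG) (B_int hF hK)

lemma B_smul (c : ℝ) (F G : E m → ℝ) : B F (c • G) = c * B F G := by
  simp only [B, Pi.smul_apply, smul_eq_mul, ← integral_const_mul]
  congr 1; funext x; ring

lemma wr_nonneg (x : E m) : 0 ≤ rp (-1) x := Real.rpow_nonneg (sq_nonneg _) _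

lemma B_self {F : E m → ℝ} (hF : Sm F) (h : B F F ≤ 0) {x : E m} (hx : ‖x‖ = 1) : F x = 0 := by
  have h0 : ∀ x : E m, 0 ≤ wt x * (rp (-1) x * (F x * F x)) := fun x =>
    mul_nonneg (wt_nonneg x) (mul_nonneg (wr_nonneg x) (mul_self_nonneg _))
  have h1 := (integral_eq_zero_iff_of_nonneg h0 (B_int hF hF)).1
    (le_antisymm h (integral_nonneg h0))
  have h2 := congrFun ((Continuous.ae_eq_iff_eq volume
    ((sm_rp _).mul (hF.mul hF)).wt.continuous continuous_zero).1 h1) x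
  simpa [wt_one hx, rp_neg_one, hx] using h2

lemma B_dense {F : E m → ℝ} (hF : Sm F)
    (h : ∀ ε > 0, ∃ G, Sm G ∧ B F G = 0 ∧ ∀ x ≠ 0, |F x - G x| ≤ ε) : B F F ≤ 0 := by
  have hi : Integrable fun x => |wt x * (rp (-1) x * F x)| := ((sm_rp _).mul hF).integrable.abs
  set C := ∫ x, |wt x * (rp (-1) x * F x)| with hC
  have hC0 : 0 ≤ C := integral_nonneg fun x => abs_nonneg _
  refine le_of_forall_pos_le_add fun ε hε => ?_
  obtain ⟨G, hG, h1, h2⟩ := h (ε / (C + 1)) (by positivity)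
  have h3 : B F F = B F (F - G) := by rw [B_sub hF hF hG, h1, sub_zero]
  have h4 : B F (F - G) ≤ ∫ x, ε / (C + 1) * |wt x * (rp (-1) x * F x)| := by
    refine integral_mono (B_int hF (hF.sub hG)) (hi.const_mul _) fun x => ?_
    by_cases hx : x = 0
    · subst hx; simp [wt_zero (m := m) (x := 0) (Or.inl (by simp))]
    · calc wt x * (rp (-1) x * (F x * (F - G) x))
          = (F x - G x) * (wt x * (rp (-1) x * F x)) := by simp only [Pi.sub_apply]; ring
        _ ≤ |F x - G x| * |wt x * (rp (-1) x * F x)| := by rw [← abs_mul]; exact le_abs_self _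
        _ ≤ _ := mul_le_mul_of_nonneg_right (h2 x hx) (abs_nonneg _)
  rw [integral_const_mul, ← hC] at h4
  have h5 : ε / (C + 1) * C ≤ ε := by
    rw [div_mul_eq_mul_div, div_le_iff₀ (by positivity)]; nlinarith
  linarith

end Pool.Agent.P.MP_13d552_gt.H
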