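import Mathlib

set_option autoImplicit false

namespace Pool.Agent.P.MP_13d552_gt.H

/-- Euclidean space of dimension `m`. -/
abbrev E (m : ℕ) : Type := EuclideanSpace ℝ (Fin m)

/-- The orthogonal group `O(m)`. -/
abbrev O (m : ℕ) : Type := E m ≃ₗᵢ[ℝ] E m

lemma two_le : (2 : WithTop ℕ∞) ≤ (⊤ : ℕ∞) := WithTop.coe_le_coe.2 (le_top (a := (2 : ℕ∞)))

/-- A finite subgroup of `O(m)` acting freely on the unit sphere. -/
def IsSpaceForm {m : ℕ} (Γ : Subgroup (O m)) : Prop :=
  Finite Γ ∧ ∀ g ∈ Γ, ∀ x : E m, ‖x‖ = 1 → g x = x → g = 1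

/-- The Riemannian distance in the quotient of the sphere by `Γ` between the classes of two
unit vectors: the least angle between the two orbits. -/
noncomputable def qdist {m : ℕ} (Γ : Subgroup (O m)) (x y : E m) : ℝ :=
  ⨅ g : Γ, InnerProductGeometry.angle x (g.1 y)

/-- The quotients are isometric: some map of the sphere induces a distance preserving surjection
of the quotients. -/
def Isometric {m : ℕ} (Γ₁ Γ₂ : Subgroup (O m)) : Prop :=
  ∃ f : Metric.sphere (0 : E m) 1 → Metric.sphere (0 : E m) 1,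
    (∀ x y, qdist Γ₂ (f x) (f y) = qdist Γ₁ x y) ∧
    ∀ y : Metric.sphere (0 : E m) 1, ∃ x, qdist Γ₂ (f x) y = 0

/-- The `c`-eigenspace of the Laplace-Beltrami operator of the quotient: smooth `Γ`-invariant
functions on the sphere, written as functions homogeneous of degree zero (value `0` at the
origin), whose Euclidean Laplacian on the sphere is `-c` times the function. -/
def eigenspace {m : ℕ} (Γ : Subgroup (O m)) (c : ℝ) : Submodule ℝ (E m → ℝ) where
  carrier := {F | F 0 = 0 ∧ (∀ t : ℝ, 0 < t → ∀ x, F (t • x) = F x) ∧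
    ContDiffOn ℝ (⊤ : ℕ∞) F {0}ᶜ ∧ (∀ g ∈ Γ, ∀ x, F (g x) = F x) ∧
    ∀ x, ‖x‖ = 1 → Laplacian.laplacian F x = -c * F x}
  zero_mem' := ⟨rfl, fun _ _ _ => rfl, contDiffOn_const, fun _ _ _ => rfl, fun x _ => by
    have : (0 : E m → ℝ) = fun _ => 0 := rfl
    rw [this, InnerProductSpace.laplacian_const]; simp⟩
  add_mem' := by
    rintro F G ⟨a1, a2, a3, a4, a5⟩ ⟨b1, b2, b3, b4, b5⟩
    refine ⟨by simp [a1, b1], fun t ht x => by simp [a2 t ht, b2 t ht], a3.add b3,
      fun g hg x => by simp [a4 g hg, b4 g hg], fun x hx => ?_⟩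
    have h0 : ({0}ᶜ : Set (E m)) ∈ nhds x :=
      isOpen_compl_singleton.mem_nhds (by rintro rfl; simp at hx)
    rw [ContDiffAt.laplacian_add ((a3.contDiffAt h0).of_le two_le)
      ((b3.contDiffAt h0).of_le two_le), a5 x hx, b5 x hx, Pi.add_apply]
    ring
  smul_mem' := by
    rintro r F ⟨a1, a2, a3, a4, a5⟩
    refine ⟨by simp [a1], fun t ht x => by simp [a2 t ht], a3.const_smul r,
      fun g hg x => by simp [a4 g hg], fun x hx => ?_⟩
    have h0 : ({0}ᶜ : Set (E m)) ∈ nhds x :=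
      isOpen_compl_singleton.mem_nhds (by rintro rfl; simp at hx)
    rw [InnerProductSpace.laplacian_smul r
      ((a3.contDiffAt h0).of_le two_le), a5 x hx]
    simp only [Pi.smul_apply, smul_eq_mul]
    ring

/-- Same eigenvalues with the same multiplicities. -/
def Isospectral {m : ℕ} (Γ₁ Γ₂ : Subgroup (O m)) : Prop :=
  ∀ c : ℝ, Module.rank ℝ (eigenspace Γ₁ c) = Module.rank ℝ (eigenspace Γ₂ c)

/-- An isospectral non-isometric pair of spherical space forms of dimension `m - 1`. -/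
def IsPair {m : ℕ} (Γ₁ Γ₂ : Subgroup (O m)) : Prop :=
  IsSpaceForm Γ₁ ∧ IsSpaceForm Γ₂ ∧ Isospectral Γ₁ Γ₂ ∧ ¬ Isometric Γ₁ Γ₂

end Pool.Agent.P.MP_13d552_gt.H
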