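import Mathlib

set_option autoImplicit false

namespace Pool.Agent.P.MP_13d552_gt.H
open Filter Topology MeasureTheory Set

variable {E : Type} [NormedAddCommGroup E] [InnerProductSpace ℝ E] [FiniteDimensional ℝ E]

lemma cover {ι : Type} [Finite ι] (W : ι → Submodule ℝ E) {z : E}
    (h : ∀ᶠ y in 𝓝 z, ∃ i, y ∈ W i) : ∃ i, W i = ⊤ := by
  by_contra hne
  push Not at hne
  borelize E
  have h0 : (Module.finBasis ℝ E).addHaar (⋃ i, (W i : Set E)) = 0 :=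
    measure_iUnion_null fun i => Measure.addHaar_submodule _ _ (hne i)
  have h1 : (⋃ i, (W i : Set E)) ∈ 𝓝 z := h.mono fun y hy => mem_iUnion.2 hy
  exact (Measure.measure_pos_of_mem_nhds _ h1).ne' h0

lemma cover_eq {ι : Type} [Finite ι] (A B : ι → (E ≃ₗᵢ[ℝ] E)) {z : E}
    (h : ∀ᶠ y in 𝓝 z, ∃ i, A i y = B i y) : ∃ i, A i = B i := by
  obtain ⟨i, hi⟩ := cover (fun i => LinearMap.eqLocus (A i).toLinearEquiv.toLinearMap
    (B i).toLinearEquiv.toLinearMap) (z := z) h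
  refine ⟨i, LinearIsometryEquiv.ext fun y => ?_⟩
  have : y ∈ LinearMap.eqLocus (A i).toLinearEquiv.toLinearMap
    (B i).toLinearEquiv.toLinearMap := hi ▸ Submodule.mem_top
  exact this

/-- The set of chordal distances from `x` to the orbit of `y`. -/
def ds (G : Subgroup (E ≃ₗᵢ[ℝ] E)) (x y : E) : Set ℝ := {t | ∃ g ∈ G, ‖x - g y‖ = t}

omit [FiniteDimensional ℝ E] in
lemma ds_left (G : Subgroup (E ≃ₗᵢ[ℝ] E)) {a b : E ≃ₗᵢ[ℝ] E} (ha : a ∈ G) (hb : b ∈ G) (x y : E) :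
    ds G (a x) (b y) = ds G x y := by
  ext t
  constructor
  · rintro ⟨g, hg, rfl⟩
    refine ⟨a⁻¹ * g * b, G.mul_mem (G.mul_mem (G.inv_mem ha) hg) hb, ?_⟩
    rw [← a.norm_map, map_sub]
    simp
  · rintro ⟨g, hg, rfl⟩
    refine ⟨a * g * b⁻¹, G.mul_mem (G.mul_mem ha hg) (G.inv_mem hb), ?_⟩
    rw [← a.norm_map (x - g y), map_sub]
    simp

omit [FiniteDimensional ℝ E] in
lemma ds_exists (G : Subgroup (E ≃ₗᵢ[ℝ] E)) [Finite G] (x y : E) : ∃ t, IsLeast (ds G x y) t := by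
  obtain ⟨g, hg⟩ := Finite.exists_min (fun g : G => ‖x - g.1 y‖)
  exact ⟨_, ⟨g.1, g.2, rfl⟩, by rintro _ ⟨a, ha, rfl⟩; exact hg ⟨a, ha⟩⟩

omit [FiniteDimensional ℝ E] in
lemma ds_zero (G : Subgroup (E ≃ₗᵢ[ℝ] E)) {x y : E} :
    IsLeast (ds G x y) 0 ↔ ∃ g ∈ G, x = g y := by
  constructor
  · rintro ⟨⟨g, hg, h⟩, -⟩
    exact ⟨g, hg, sub_eq_zero.1 (norm_eq_zero.1 h)⟩
  · rintro ⟨g, hg, h⟩
    exact ⟨⟨g, hg, by rw [h, sub_self, norm_zero]⟩, by rintro _ ⟨a, -, rfl⟩; exact norm_nonneg _⟩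

lemma exists_radius (G : Subgroup (E ≃ₗᵢ[ℝ] E)) [Finite G]
    (hG : ∀ g ∈ G, ∀ x, g x = x → g = 1 ∨ x = 0) :
    ∃ δ > 0, ∀ g ∈ G, g ≠ 1 → ∀ x, ‖x‖ = 1 → δ ≤ ‖x - g x‖ := by
  have h1 : ∀ g : G, ∃ δ > 0, g.1 ≠ 1 → ∀ x, ‖x‖ = 1 → δ ≤ ‖x - g.1 x‖ := by
    intro g
    by_cases hg : g.1 = 1
    · exact ⟨1, one_pos, fun h => absurd hg h⟩
    obtain ⟨K, hK0, hK⟩ := LinearMap.exists_antilipschitzWith
      (LinearMap.id - g.1.toLinearEquiv.toLinearMap) (by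
        rw [LinearMap.ker_eq_bot']
        intro x hx
        refine (hG g.1 g.2 x ?_).resolve_left hg
        have : x - g.1 x = 0 := hx
        exact (sub_eq_zero.1 this).symm)
    have hK1 : (0 : ℝ) < K := hK0
    refine ⟨(K : ℝ)⁻¹, inv_pos.2 hK1, fun _ x hx => ?_⟩
    have := hK.le_mul_dist x 0
    simp only [dist_zero_right, map_zero, hx] at this
    rw [inv_le_iff_one_le_mul₀' hK1]
    exact this
  choose d hd0 hd using h1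
  obtain ⟨g0, hg0⟩ := Finite.exists_min d
  exact ⟨d g0, hd0 g0, fun g hg h1 x hx => (hg0 ⟨g, hg⟩).trans (hd ⟨g, hg⟩ h1 x hx)⟩

omit [FiniteDimensional ℝ E] in
lemma least_near (G : Subgroup (E ≃ₗᵢ[ℝ] E)) {δ : ℝ}
    (hδ : ∀ g ∈ G, g ≠ 1 → ∀ x, ‖x‖ = 1 → δ ≤ ‖x - g x‖) {x y : E} (hy : ‖y‖ = 1)
    (hxy : ‖x - y‖ ≤ δ / 2) : IsLeast (ds G x y) ‖x - y‖ := by
  refine ⟨⟨1, G.one_mem, rfl⟩, ?_⟩
  rintro _ ⟨g, hg, rfl⟩
  by_cases h1 : g = 1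
  · subst h1; exact le_rfl
  have h2 := hδ g hg h1 y hy
  have h3 : ‖y - g y‖ ≤ ‖y - x‖ + ‖x - g y‖ := norm_sub_le_norm_sub_add_norm_sub _ _ _
  rw [norm_sub_rev y x] at h3
  linarith

lemma near_unit {x : E} (hx : x ≠ 0) {η : ℝ} (hη : 0 < η) :
    ∀ᶠ y in 𝓝 x, y ≠ 0 ∧ ‖‖y‖⁻¹ • y‖ = 1 ∧ ‖‖x‖⁻¹ • x - ‖y‖⁻¹ • y‖ < η := by
  have h1 : ContinuousAt (fun y : E => ‖‖x‖⁻¹ • x - ‖y‖⁻¹ • y‖) x :=
    (continuousAt_const.sub ((continuous_norm.continuousAt.inv₀ (norm_ne_zero_iff.2 hx)).smul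
      continuousAt_id)).norm
  have h2 := h1.eventually (gt_mem_nhds (show ‖‖x‖⁻¹ • x - ‖x‖⁻¹ • x‖ < η by simpa using hη))
  filter_upwards [h2, isOpen_ne.mem_nhds hx] with y h3 h4
  exact ⟨h4, norm_smul_inv_norm h4, h3⟩

lemma extend {x : E} (hx : x ≠ 0) {η : ℝ} (hη : 0 < η) (φ : E → E)
    (hφ : ∀ u v, ‖u‖ = 1 → ‖‖x‖⁻¹ • x - u‖ < η → ‖v‖ = 1 → ‖‖x‖⁻¹ • x - v‖ < η →
      inner ℝ (φ u) (φ v) = inner ℝ u v) :
    ∃ h : E ≃ₗᵢ[ℝ] E, ∀ u, ‖u‖ = 1 → ‖‖x‖⁻¹ • x - u‖ < η → φ u = h u := by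
  set U : Set E := {u | ‖u‖ = 1 ∧ ‖‖x‖⁻¹ • x - u‖ < η} with hU
  have hsp : Submodule.span ℝ U = ⊤ := by
    obtain ⟨_, h⟩ := cover (fun _ : Unit => Submodule.span ℝ U) (z := x) (by
      filter_upwards [near_unit hx hη] with y hy
      refine ⟨(), ?_⟩
      have : y = ‖y‖ • (‖y‖⁻¹ • y) := by
        rw [smul_smul, mul_inv_cancel₀ (norm_ne_zero_iff.2 hy.1), one_smul]
      rw [this]
      exact Submodule.smul_mem _ _ (Submodule.subset_span ⟨hy.2.1, hy.2.2⟩))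
    exact h
  let b := Module.Basis.ofSpan hsp.ge
  have hb : ∀ i, b i ∈ U := fun i => Module.Basis.ofSpan_subset hsp.ge ⟨i, rfl⟩
  let L : E →ₗ[ℝ] E := b.constr ℝ (fun i => φ (b i))
  have hL : ∀ i, L (b i) = φ (b i) := fun i => b.constr_basis ℝ _ i
  have h1 : ∀ u ∈ U, ∀ w, inner ℝ (φ u) (L w) = inner ℝ u w := by
    intro u hu w
    have : (innerₛₗ ℝ (φ u)).comp L = innerₛₗ ℝ u := b.ext fun i => by
      simp only [LinearMap.comp_apply, hL, innerₛₗ_apply_apply]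
      exact hφ _ _ hu.1 hu.2 (hb i).1 (hb i).2
    exact LinearMap.congr_fun this w
  have h2 : ∀ v w, inner ℝ (L v) (L w) = inner ℝ v w := by
    intro v w
    have : (innerₛₗ ℝ (L w)).comp L = innerₛₗ ℝ w := b.ext fun i => by
      simp only [LinearMap.comp_apply, hL, innerₛₗ_apply_apply]
      rw [real_inner_comm, h1 _ (hb i), real_inner_comm]
    have := LinearMap.congr_fun this v
    simp only [LinearMap.comp_apply, innerₛₗ_apply_apply] at this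
    rw [real_inner_comm, this, real_inner_comm]
  let h : E ≃ₗᵢ[ℝ] E := (L.isometryOfInner h2).toLinearIsometryEquiv rfl
  have hh : ∀ v, h v = L v := fun v => rfl
  refine ⟨h, fun u hu1 hu2 => ?_⟩
  refine ext_inner_right ℝ fun w => ?_
  obtain ⟨v, rfl⟩ := h.surjective w
  rw [hh, hh, h1 u ⟨hu1, hu2⟩, h2]

theorem conj_of_isometry (hE : 1 < Module.rank ℝ E) (G₁ G₂ : Subgroup (E ≃ₗᵢ[ℝ] E))
    [Finite G₁] [Finite G₂]
    (hG₁ : ∀ g ∈ G₁, ∀ x, g x = x → g = 1 ∨ x = 0) (hG₂ : ∀ g ∈ G₂, ∀ x, g x = x → g = 1 ∨ x = 0)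
    (f : E → E) (hf1 : ∀ x, ‖x‖ = 1 → ‖f x‖ = 1)
    (hf : ∀ x y t, ‖x‖ = 1 → ‖y‖ = 1 → IsLeast (ds G₁ x y) t → IsLeast (ds G₂ (f x) (f y)) t) :
    ∃ h : E ≃ₗᵢ[ℝ] E, ∀ g, g ∈ G₂ ↔ h⁻¹ * g * h ∈ G₁ := by
  obtain ⟨δ₁, d1, hδ₁⟩ := exists_radius G₁ hG₁
  obtain ⟨δ₂, d2, hδ₂⟩ := exists_radius G₂ hG₂
  set η := min δ₁ δ₂ / 4 with hη
  have η0 : 0 < η := by positivity
  have η1 : 4 * η ≤ δ₁ := by have := min_le_left δ₁ δ₂; linarith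
  have η2 : 4 * η ≤ δ₂ := by have := min_le_right δ₁ δ₂; linarith
  have loc : ∀ x : E, x ≠ 0 → ∃ h : E ≃ₗᵢ[ℝ] E,
      ∀ᶠ y in 𝓝 x, ∃ g ∈ G₂, f (‖y‖⁻¹ • y) = g (h (‖y‖⁻¹ • y)) := by
    intro x hx
    set x0 := ‖x‖⁻¹ • x with hx0
    have n0 : ‖x0‖ = 1 := norm_smul_inv_norm hx
    have h1 : ∀ u, ∃ g ∈ G₂, ‖u‖ = 1 → ‖x0 - u‖ < η → ‖f x0 - g (f u)‖ < η := by
      intro u
      by_cases hu : ‖u‖ = 1 ∧ ‖x0 - u‖ < η
      · obtain ⟨g, hg, h⟩ := (hf _ _ _ n0 hu.1 (least_near G₁ hδ₁ hu.1 (by linarith [hu.2]))).1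
        exact ⟨g, hg, fun _ _ => h ▸ hu.2⟩
      · exact ⟨1, G₂.one_mem, fun a b => absurd ⟨a, b⟩ hu⟩
    choose γ hγ hγ' using h1
    obtain ⟨h, hh⟩ := extend hx η0 (fun u => γ u (f u)) (fun u v hu hu' hv hv' => by
      have a1 := hγ' u hu hu'
      have a2 := hγ' v hv hv'
      have b1 : ‖γ u (f u)‖ = 1 := by rw [LinearIsometryEquiv.norm_map, hf1 u hu]
      have b2 : ‖γ v (f v)‖ = 1 := by rw [LinearIsometryEquiv.norm_map, hf1 v hv]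
      have c1 : ‖u - v‖ ≤ ‖u - x0‖ + ‖x0 - v‖ := norm_sub_le_norm_sub_add_norm_sub _ _ _
      have c2 : ‖γ u (f u) - γ v (f v)‖ ≤ ‖γ u (f u) - f x0‖ + ‖f x0 - γ v (f v)‖ :=
        norm_sub_le_norm_sub_add_norm_sub _ _ _
      rw [norm_sub_rev u x0] at c1
      rw [norm_sub_rev _ (f x0)] at c2
      have e1 := hf _ _ _ hu hv (least_near G₁ hδ₁ (x := u) hv (by linarith))
      have e2 := least_near G₂ hδ₂ (x := γ u (f u)) b2 (by linarith)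
      rw [ds_left G₂ (hγ u) (hγ v)] at e2
      have e3 := e2.unique e1
      have e4 := norm_sub_sq_real (γ u (f u)) (γ v (f v))
      have e5 := norm_sub_sq_real u v
      rw [e3, b1, b2] at e4
      rw [hu, hv] at e5
      linarith)
    refine ⟨h, ?_⟩
    filter_upwards [near_unit hx η0] with y hy
    refine ⟨(γ (‖y‖⁻¹ • y))⁻¹, G₂.inv_mem (hγ _), ?_⟩
    rw [← hh _ hy.2.1 hy.2.2]
    simp
  have : Nontrivial E := rank_pos_iff_nontrivial.1 (zero_lt_one.trans hE)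
  obtain ⟨e, he⟩ := exists_ne (0 : E)
  obtain ⟨h, hh⟩ := loc e he
  have glob : ({0}ᶜ : Set E) ⊆
      {x | ∀ᶠ y in 𝓝 x, ∃ g ∈ G₂, f (‖y‖⁻¹ • y) = g (h (‖y‖⁻¹ • y))} := by
    refine (isConnected_compl_singleton_of_one_lt_rank hE 0).isPreconnected.subset_of_closure_inter_subset
      isOpen_setOf_eventually_nhds ⟨e, he, hh⟩ ?_
    rintro x ⟨hx1, hx⟩
    obtain ⟨k, hk⟩ := loc x hx
    obtain ⟨z, hz1, hz2⟩ := mem_closure_iff_nhds.1 hx1 _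
      (hk.eventually_nhds.and (isOpen_ne.mem_nhds hx))
    obtain ⟨g, hg⟩ := cover_eq (fun _ : G₂ => k) (fun g => g.1 * h) (z := z) (by
      filter_upwards [hz1.1, hz2, isOpen_ne.mem_nhds hz1.2] with y ⟨a, ha, e1⟩ ⟨b, hb, e2⟩ hy
      refine ⟨⟨a⁻¹ * b, G₂.mul_mem (G₂.inv_mem ha) hb⟩, ?_⟩
      rw [e1, map_smul, map_smul, map_smul, map_smul] at e2
      have e3 := smul_right_injective E (inv_ne_zero (norm_ne_zero_iff.2 hy)) e2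
      simp [← e3])
    filter_upwards [hk] with y ⟨a, ha, e1⟩
    exact ⟨a * g.1, G₂.mul_mem ha g.2, by rw [e1, hg]; rfl⟩
  have hu : ∀ u, ‖u‖ = 1 → ∃ g ∈ G₂, f u = g (h u) := by
    intro u hu
    have h0 : u ≠ 0 := by rintro rfl; simp at hu
    simpa [hu] using (glob h0).self_of_nhds
  have key : ∀ u v, ‖u‖ = 1 → ‖v‖ = 1 → ((∃ g ∈ G₁, u = g v) ↔ ∃ g ∈ G₂, h u = g (h v)) := by
    intro u v h1 h2
    obtain ⟨a, ha, e1⟩ := hu u h1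
    obtain ⟨b, hb, e2⟩ := hu v h2
    obtain ⟨t, ht⟩ := ds_exists G₁ u v
    have := hf _ _ _ h1 h2 ht
    rw [e1, e2, ds_left G₂ ha hb] at this
    rw [← ds_zero, ← ds_zero]
    exact ⟨fun h3 => ht.unique h3 ▸ this, fun h3 => this.unique h3 ▸ ht⟩
  refine ⟨h, fun g => ⟨fun hg => ?_, fun hg => ?_⟩⟩
  · obtain ⟨a, ha⟩ := cover_eq (fun _ : G₁ => h⁻¹ * g * h) (fun a => a.1) (z := e) (by
      filter_upwards [isOpen_ne.mem_nhds he] with y hy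
      have n1 : ‖‖y‖⁻¹ • y‖ = 1 := norm_smul_inv_norm hy
      obtain ⟨a, ha, e1⟩ := (key ((h⁻¹ * g * h) (‖y‖⁻¹ • y)) _
        (by rw [LinearIsometryEquiv.norm_map, n1]) n1).2 ⟨g, hg, by simp⟩
      rw [map_smul, map_smul] at e1
      exact ⟨⟨a, ha⟩, smul_right_injective E (inv_ne_zero (norm_ne_zero_iff.2 hy)) e1⟩)
    rw [ha]; exact a.2
  · obtain ⟨a, ha⟩ := cover_eq (fun _ : G₂ => g * h) (fun a => a.1 * h) (z := e) (by
      filter_upwards [isOpen_ne.mem_nhds he] with y hy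
      have n1 : ‖‖y‖⁻¹ • y‖ = 1 := norm_smul_inv_norm hy
      obtain ⟨a, ha, e1⟩ := (key ((h⁻¹ * g * h) (‖y‖⁻¹ • y)) _
        (by rw [LinearIsometryEquiv.norm_map, n1]) n1).1 ⟨_, hg, rfl⟩
      simp only [map_smul] at e1
      have e2 := smul_right_injective E (inv_ne_zero (norm_ne_zero_iff.2 hy)) e1
      exact ⟨⟨a, ha⟩, by simpa using e2⟩)
    rw [mul_right_cancel ha]; exact a.2

end Pool.Agent.P.MP_13d552_gt.H
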