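import Pool.Agent.P.MP_13d552_gt.H.Spec
import Pool.Agent.P.MP_13d552_gt.H.Lift
import Pool.Agent.P.MP_13d552_gt.Pairs
import Pool.Agent.P.MP_13d552_gt.Small

set_option autoImplicit false

namespace Pool.Agent.P.MP_13d552_gt.H
open InnerProductGeometry

variable {m : ℕ}

lemma IsSpaceForm.free {Γ : Subgroup (O m)} (h : IsSpaceForm Γ) :
    ∀ g ∈ Γ, ∀ x, g x = x → g = 1 ∨ x = 0 := by
  intro g hg x hx
  by_cases h0 : x = 0
  · exact Or.inr h0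
  · exact Or.inl (h.2 g hg (‖x‖⁻¹ • x) (norm_smul_inv_norm h0) (by rw [map_smul, hx]))

lemma chord {x y : E m} (hx : ‖x‖ = 1) (hy : ‖y‖ = 1) :
    ‖x - y‖ ^ 2 = 2 - 2 * Real.cos (angle x y) := by
  rw [norm_sub_sq_real, cos_angle, hx, hy]; ring

lemma least_iff (Γ : Subgroup (O m)) [Finite Γ] {x y : E m} (hx : ‖x‖ = 1) (hy : ‖y‖ = 1) {t : ℝ} :
    IsLeast (ds Γ x y) t ↔ t = √(2 - 2 * Real.cos (qdist Γ x y)) := by
  obtain ⟨g, hg⟩ := exists_eq_ciInf_of_finite (f := fun g : Γ => angle x (g.1 y))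
  have h1 : IsLeast (ds Γ x y) √(2 - 2 * Real.cos (qdist Γ x y)) := by
    have n : ∀ a : O m, ‖a y‖ = 1 := fun a => by rw [a.norm_map, hy]
    rw [qdist, ← hg, ← chord hx (n _), Real.sqrt_sq (norm_nonneg _)]
    refine ⟨⟨g.1, g.2, rfl⟩, ?_⟩
    rintro _ ⟨a, ha, rfl⟩
    have h2 : angle x (g.1 y) ≤ angle x (a y) :=
      hg.le.trans (ciInf_le (Finite.bddBelow_range _) (⟨a, ha⟩ : Γ))
    have h3 := Real.cos_le_cos_of_nonneg_of_le_pi (angle_nonneg _ _) (angle_le_pi _ _) h2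
    refine (sq_le_sq₀ (norm_nonneg _) (norm_nonneg _)).1 ?_
    rw [chord hx (n _), chord hx (n _)]; linarith
  exact ⟨fun h => h.unique h1, fun h => h ▸ h1⟩

lemma isometric_iff (hm : 2 ≤ m) {Γ₁ Γ₂ : Subgroup (O m)} (h₁ : IsSpaceForm Γ₁)
    (h₂ : IsSpaceForm Γ₂) : Isometric Γ₁ Γ₂ ↔ ∃ h : O m, ∀ g, g ∈ Γ₂ ↔ h⁻¹ * g * h ∈ Γ₁ := by
  have := h₁.1
  have := h₂.1
  constructor
  · rintro ⟨f, hf, -⟩
    classical
    refine conj_of_isometry (by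
        rw [← Module.finrank_eq_rank, finrank_euclideanSpace_fin]; exact_mod_cast hm)
      Γ₁ Γ₂ h₁.free h₂.free
      (fun x => if h : ‖x‖ = 1 then (f ⟨x, mem_sphere_zero_iff_norm.2 h⟩).1 else x)
      (fun x hx => by rw [dif_pos hx]; exact mem_sphere_zero_iff_norm.1 (f _).2) ?_
    intro x y t hx hy ht
    rw [dif_pos hx, dif_pos hy, least_iff Γ₂ (mem_sphere_zero_iff_norm.1 (f _).2)
      (mem_sphere_zero_iff_norm.1 (f _).2), hf]
    exact (least_iff Γ₁ hx hy).1 ht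
  · rintro ⟨h, hh⟩
    refine ⟨fun x => ⟨h x, by simpa using x.2⟩, fun x y => ?_, fun y => ?_⟩
    · let e : Γ₂ ≃ Γ₁ :=
        { toFun := fun g => ⟨h⁻¹ * g.1 * h, (hh _).1 g.2⟩
          invFun := fun g => ⟨h * g.1 * h⁻¹, (hh _).2 (by simpa [mul_assoc] using g.2)⟩
          left_inv := fun g => Subtype.ext (by simp [mul_assoc])
          right_inv := fun g => Subtype.ext (by simp [mul_assoc]) }
      refine e.iInf_congr fun g => ?_
      rw [← h.toLinearIsometry.angle_map]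
      simp [e]
    · refine ⟨⟨h⁻¹ y, by simpa using y.2⟩, le_antisymm ?_ (le_ciInf fun g => angle_nonneg _ _)⟩
      refine (ciInf_le (Finite.bddBelow_range _) (1 : Γ₂)).trans (le_of_eq ?_)
      have : y.1 ≠ 0 := by intro h0; have := y.2; simp [h0] at this
      simpa using angle_self this

/-- The matrix group of a group of isometries. -/
noncomputable abbrev mat (Γ : Subgroup (O m)) : Subgroup (Matrix.orthogonalGroup (Fin m) ℝ) :=
  Γ.comap (rho m).toMonoidHom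

/-- The isomorphism with the matrix group. -/
noncomputable def matEquiv (Γ : Subgroup (O m)) : mat Γ ≃* Γ where
  toFun g := ⟨rho m g.1, g.2⟩
  invFun g := ⟨(rho m).symm g.1, by
    change rho m ((rho m).symm g.1) ∈ Γ
    rw [MulEquiv.apply_symm_apply]; exact g.2⟩
  left_inv g := Subtype.ext ((rho m).symm_apply_apply _)
  right_inv g := Subtype.ext ((rho m).apply_symm_apply _)
  map_mul' _ _ := Subtype.ext (map_mul (rho m) _ _)

lemma spaceForm_iff (Γ : Subgroup (O m)) : IsSpaceForm Γ ↔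
    (mat Γ : Set (Matrix.orthogonalGroup (Fin m) ℝ)).Finite ∧
      ∀ g ∈ mat Γ, ∀ v : Fin m → ℝ, (g : Matrix (Fin m) (Fin m) ℝ).mulVec v = v → g = 1 ∨ v = 0 := by
  constructor
  · intro h
    have := h.1
    refine ⟨(Finite.of_equiv _ (matEquiv Γ).symm.toEquiv : Finite (mat Γ)), fun g hg v hv => ?_⟩
    rcases h.free (rho m g) hg (WithLp.toLp 2 v) (PiLp.ext fun i => congrFun hv i) with h1 | h1
    · exact Or.inl ((map_eq_one_iff _ (rho m).injective).1 h1)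
    · exact Or.inr (congrArg WithLp.ofLp h1)
  · rintro ⟨h1, h2⟩
    have : Finite (mat Γ) := h1
    refine ⟨Finite.of_equiv _ (matEquiv Γ).toEquiv, fun g hg x hx hgx => ?_⟩
    obtain ⟨g, rfl⟩ := (rho m).surjective g
    rcases h2 g hg x.ofLp (congrArg WithLp.ofLp hgx) with h3 | h3
    · rw [h3, map_one]
    · have : x = 0 := PiLp.ext fun i => congrFun h3 i
      simp [this] at hx

lemma conj_iff (Γ₁ Γ₂ : Subgroup (O m)) : (∃ h : O m, ∀ g, g ∈ Γ₂ ↔ h⁻¹ * g * h ∈ Γ₁) ↔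
    ∃ h : Matrix.orthogonalGroup (Fin m) ℝ,
      mat Γ₂ = (mat Γ₁).map (MulAut.conj h).toMonoidHom := by
  have key : ∀ h g : Matrix.orthogonalGroup (Fin m) ℝ,
      g ∈ (mat Γ₁).map (MulAut.conj h).toMonoidHom ↔ (rho m h)⁻¹ * rho m g * rho m h ∈ Γ₁ := by
    intro h g
    rw [Subgroup.mem_map_equiv, MulAut.conj_symm_apply, ← map_inv, ← map_mul, ← map_mul]
    rfl
  constructor
  · rintro ⟨h, hh⟩
    obtain ⟨h, rfl⟩ := (rho m).surjective h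
    exact ⟨h, Subgroup.ext fun g => by rw [key, ← hh]; rfl⟩
  · rintro ⟨h, hh⟩
    refine ⟨rho m h, fun g => ?_⟩
    obtain ⟨g, rfl⟩ := (rho m).surjective g
    rw [← key, ← hh]; rfl

lemma mat_surj (Λ : Subgroup (Matrix.orthogonalGroup (Fin m) ℝ)) : ∃ Γ, mat Γ = Λ :=
  ⟨Λ.map (rho m).toMonoidHom, Subgroup.comap_map_eq_self_of_injective (rho m).injective _⟩

lemma pair_of_hasPair {n q : ℕ} (hn : 1 ≤ n) (h : HasPair n q) :
    ∃ Γ₁ Γ₂ : Subgroup (O (2 * n)), IsPair Γ₁ Γ₂ ∧ Nat.card Γ₁ = q := by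
  obtain ⟨Λ₁, Λ₂, l1, l2, l3, l4, l5, l6, l7⟩ := h
  obtain ⟨Γ₁, rfl⟩ := mat_surj Λ₁
  obtain ⟨Γ₂, rfl⟩ := mat_surj Λ₂
  have h₁ := (spaceForm_iff Γ₁).2 ⟨l1, l3⟩
  have h₂ := (spaceForm_iff Γ₂).2 ⟨l2, l4⟩
  refine ⟨Γ₁, Γ₂, ⟨h₁, h₂, (isospectral_iff (by omega) _ _).2 l5, ?_⟩, ?_⟩
  · rw [isometric_iff (by omega) h₁ h₂, conj_iff]; exact l6
  · rw [← l7]; exact (Nat.card_congr (matEquiv Γ₁).toEquiv).symm

lemma cyclic_of_pair (hm : 2 ≤ m) {Γ₁ Γ₂ : Subgroup (O m)} (h : IsPair Γ₁ Γ₂)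
    (hN : Nat.card Γ₁ ≤ 27) : IsCyclic Γ₁ ∧ IsCyclic Γ₂ := by
  obtain ⟨h₁, h₂, h3, h4⟩ := h
  rw [isometric_iff hm h₁ h₂, conj_iff] at h4
  obtain ⟨a1, a2⟩ := (spaceForm_iff Γ₁).1 h₁
  obtain ⟨b1, b2⟩ := (spaceForm_iff Γ₂).1 h₂
  obtain ⟨c1, c2⟩ := cyclic_of_small (by omega) (mat Γ₁) (mat Γ₂) a1 b1 a2 b2
    ((isospectral_iff hm _ _).1 h3) h4 (by rwa [Nat.card_congr (matEquiv Γ₁).toEquiv])
  exact ⟨(matEquiv Γ₁).isCyclic.1 c1, (matEquiv Γ₂).isCyclic.1 c2⟩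

end Pool.Agent.P.MP_13d552_gt.H
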