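import Pool.Agent.P.MP_13d552_gt.H.Calc
import Pool.Agent.P.MP_13d552_gt.Harmonic

set_option autoImplicit false

namespace Pool.Agent.P.MP_13d552_gt.H
open Filter Topology MeasureTheory Set MvPolynomial

variable {m : ℕ}

/-- Real polynomials in the coordinates. -/
abbrev Po (m : ℕ) : Type := MvPolynomial (Fin m) ℝ

/-- Evaluation. -/
noncomputable def ev (p : Po m) (x : E m) : ℝ := eval (fun i => x i) p

lemma ev_smooth (p : Po m) : ContDiff ℝ (⊤ : ℕ∞) (ev p) := by
  induction p using MvPolynomial.induction_on with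
  | C a => unfold ev; simp only [eval_C]; exact contDiff_const
  | add p q hp hq => unfold ev; simp only [map_add]; exact hp.add hq
  | mul_X p i hp =>
    unfold ev; simp only [map_mul, eval_X]
    exact hp.mul (EuclideanSpace.proj (𝕜 := ℝ) i).contDiff

lemma D_ev (p : Po m) (i : Fin m) : D i (ev p) = ev (pderiv i p) := by
  funext x
  induction p using MvPolynomial.induction_on with
  | C a =>
    rw [show ev (C a : Po m) = fun _ => a from funext fun y => eval_C a, D_const]
    simp [ev]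
  | add p q hp hq =>
    rw [show ev (p + q) = fun y => ev p y + ev q y from funext fun y => map_add _ _ _]
    unfold D at *
    rw [fderiv_fun_add ((ev_smooth p).differentiable (by simp) x)
      ((ev_smooth q).differentiable (by simp) x), ContinuousLinearMap.add_apply, hp, hq]
    simp [ev]
  | mul_X p j hp =>
    rw [show ev (p * X j) = fun y => ev p y * y j from funext fun y => by simp [ev],
      D_mul' (g := fun y => y j) ((ev_smooth p).differentiable (by simp) x)
        (EuclideanSpace.proj (𝕜 := ℝ) j).differentiableAt, hp, D_coord]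
    by_cases h : j = i
    · subst h; simp [ev]; ring
    · simp [ev, pderiv_X_of_ne h, h]; ring

lemma ev_smul {p : Po m} {k : ℕ} (hp : p.IsHomogeneous k) (t : ℝ) (x : E m) :
    ev p (t • x) = t ^ k * ev p x := by
  unfold ev
  rw [eval_eq', eval_eq', Finset.mul_sum]
  refine Finset.sum_congr rfl fun d hd => ?_
  have h1 : ∑ i, d i = k := by
    have := hp (mem_support_iff.1 hd)
    rw [← this, Finsupp.weight_apply, Finsupp.sum_fintype _ _ (by simp)]
    simp
  simp only [PiLp.smul_apply, smul_eq_mul, mul_pow, Finset.prod_mul_distrib,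
    Finset.prod_pow_eq_pow_sum, h1]
  ring

open Classical in
/-- The extension of degree zero of the restriction to the sphere. -/
noncomputable def N : Po m →ₗ[ℝ] (E m → ℝ) where
  toFun p x := if x = 0 then 0 else ev p (‖x‖⁻¹ • x)
  map_add' p q := by funext x; by_cases h : x = 0 <;> simp [h, ev]
  map_smul' c p := by funext x; by_cases h : x = 0 <;> simp [h, ev]

lemma N_apply (p : Po m) {x : E m} (hx : x ≠ 0) : N p x = ev p (‖x‖⁻¹ • x) := if_neg hx

lemma N_zero (p : Po m) : N p 0 = 0 := if_pos rfl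

lemma N_sm (p : Po m) : Sm (N p) := by
  refine Sm.congr (f := fun x => ev p (‖x‖⁻¹ • x)) (fun x hx => ?_) fun x hx => N_apply p hx
  exact ((ev_smooth p).contDiffAt.comp x
    (((contDiffAt_norm ℝ hx).inv (norm_ne_zero_iff.2 hx)).smul contDiffAt_id)).contDiffWithinAt

lemma N_scale (p : Po m) (t : ℝ) (ht : 0 < t) (x : E m) : N p (t • x) = N p x := by
  by_cases hx : x = 0
  · simp [hx]
  rw [N_apply p hx, N_apply p (smul_ne_zero ht.ne' hx), norm_smul, Real.norm_of_nonneg ht.le,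
    smul_smul, mul_inv, mul_right_comm, inv_mul_cancel₀ ht.ne', one_mul]

lemma N_homog {p : Po m} {k : ℕ} (hp : p.IsHomogeneous k) {x : E m} (hx : x ≠ 0) :
    N p x = rp (-(k : ℝ) / 2) x * ev p x := by
  rw [N_apply p hx, ev_smul hp, rp, ← Real.rpow_natCast ‖x‖ 2, ← Real.rpow_mul (norm_nonneg x),
    inv_pow, ← Real.rpow_natCast, ← Real.rpow_neg (norm_nonneg x)]
  congr 2
  push_cast; ring

lemma N_inj (hm : 0 < m) {p : Po m} {k : ℕ} (hp : p.IsHomogeneous k) (h : ∀ x, ‖x‖ = 1 → N p x = 0) :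
    p = 0 := by
  have h1 : ∀ x : E m, x ≠ 0 → ev p x = 0 := by
    intro x hx
    have h2 := h _ (norm_smul_inv_norm (𝕜 := ℝ) hx)
    have h0 : 0 < ‖x‖⁻¹ := inv_pos.2 (norm_pos_iff.2 hx)
    erw [N_scale p _ h0, N_homog hp hx] at h2
    exact (mul_eq_zero.1 h2).resolve_left (Real.rpow_pos_of_pos (sq_pos hx) _).ne'
  have : Nonempty (Fin m) := ⟨⟨0, hm⟩⟩
  have h2 : ev p = fun _ => 0 := Continuous.ext_on (dense_compl_singleton 0)
    (ev_smooth p).continuous continuous_const h1
  exact MvPolynomial.funext fun x => congrFun h2 (WithLp.toLp 2 x)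

/-- The eigenvalue of spherical harmonics of degree `k`. -/
def lam (m k : ℕ) : ℝ := k * (k + m - 2)

lemma lam_inj (hm : 2 ≤ m) {k l : ℕ} (h : lam m k = lam m l) : k = l := by
  have h1 : (2 : ℝ) ≤ m := by exact_mod_cast hm
  have h2 : ((k : ℝ) - l) * (k + l + m - 2) = 0 := by unfold lam at h; linarith
  rcases mul_eq_zero.1 h2 with h3 | h3
  · exact_mod_cast sub_eq_zero.1 h3
  · have a : (0 : ℝ) ≤ k := k.cast_nonneg
    have b : (0 : ℝ) ≤ l := l.cast_nonneg
    have : (k : ℝ) = l := by linarith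
    exact_mod_cast this

lemma N_lap {p : Po m} {k : ℕ} (hp : p.IsHomogeneous k) (hl : lap _ p = 0) {x : E m}
    (hx : x ≠ 0) : ∑ i, D i (D i (N p)) x = -lam m k * N p x * (‖x‖ ^ 2)⁻¹ := by
  have h1 : ∀ i, D i (D i (N p)) x = D i (D i fun y => rp (-(k : ℝ) / 2) y * ev p y) x := fun i =>
    D_congr (fun y hy => D_congr (fun z hz => N_homog hp hz) i hy) i hx
  have h2 : ∑ i, D i (D i (ev p)) x = 0 := by
    simp only [D_ev]
    have := congrArg (fun q => ev q x) hl
    simpa [lap_apply, ev] using this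
  have h3 : ∑ i, x i * D i (ev p) x = k * ev p x := by
    simp only [D_ev]
    have := congrArg (fun q => ev q x) hp.sum_X_mul_pderiv
    simpa [ev] using this
  simp only [h1]
  rw [lap_rp_mul _ (ev_smooth p).contDiffOn hx, h2, h3, N_homog hp hx, ← rp_succ (-(k : ℝ) / 2) hx]
  have := (sq_pos hx).ne'
  unfold lam
  field_simp
  ring

/-- The squared norm as a polynomial. -/
noncomputable def sq2 (m : ℕ) : Po m := ∑ i, X i * X i

lemma sq2_homog : (sq2 m).IsHomogeneous 2 :=
  IsHomogeneous.sum _ _ _ fun i _ => (isHomogeneous_X ℝ i).mul (isHomogeneous_X ℝ i)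

lemma N_sq2 (p : Po m) : N (sq2 m * p) = N p := by
  funext x
  by_cases hx : x = 0
  · rw [hx, N_zero, N_zero]
  have h1 := sum_sq (‖x‖⁻¹ • x)
  have h2 : ‖‖x‖⁻¹ • x‖ = 1 := norm_smul_inv_norm hx
  rw [N_apply _ hx, N_apply _ hx]
  rw [h2] at h1
  simp only [ev, sq2, map_mul, map_sum, eval_X, h1]
  ring

lemma lap_sq2 {q : Po m} {d : ℕ} (hq : q.IsHomogeneous d) :
    lap _ (sq2 m * q) = ((2 * m + 4 * d : ℕ) : ℝ) • q + sq2 m * lap _ q := by
  have h1 : ∀ i, pderiv i (sq2 m) = 2 * X i := by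
    intro i
    rw [sq2, map_sum, Finset.sum_eq_single i]
    · simp; ring
    · intro j _ hj; simp [pderiv_X_of_ne hj]
    · simp
  have h2 : ∀ i, pderiv i (pderiv i (sq2 m * q))
      = 2 * q + 4 * (X i * pderiv i q) + sq2 m * pderiv i (pderiv i q) := by
    intro i
    have h3 : pderiv i (2 : Po m) = 0 := by
      rw [show (2 : Po m) = C 2 from rfl, pderiv_C]
    simp only [pderiv_mul, map_add, h1, h3, pderiv_X_self]
    ring
  simp only [lap_apply, h2, Finset.sum_add_distrib, ← Finset.mul_sum, hq.sum_X_mul_pderiv,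
    Finset.sum_const, Finset.card_univ, Fintype.card_fin, Nat.cast_smul_eq_nsmul, nsmul_eq_mul]
  push_cast
  ring

lemma lap_sq2_pow (hm : 0 < m) {h : Po m} {d : ℕ} (hh : h.IsHomogeneous d) (hl : lap _ h = 0)
    (j : ℕ) : ∃ c : ℝ, 0 < c ∧ lap _ (sq2 m ^ (j + 1) * h) = c • (sq2 m ^ j * h) := by
  induction j with
  | zero =>
    refine ⟨((2 * m + 4 * d : ℕ) : ℝ), by positivity, ?_⟩
    rw [zero_add, pow_one, lap_sq2 hh, hl]; simp
  | succ j ih =>
    obtain ⟨c, hc, e⟩ := ih
    refine ⟨((2 * m + 4 * (2 * (j + 1) + d) : ℕ) : ℝ) + c, by positivity, ?_⟩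
    rw [pow_succ' _ (j + 1), mul_assoc, lap_sq2 ((sq2_homog.pow (j + 1)).mul hh), e, add_smul,
      mul_smul_comm, ← mul_assoc, ← pow_succ']

/-- The span of multiples of harmonic polynomials. -/
noncomputable def W (m k : ℕ) : Submodule ℝ (Po m) := Submodule.span ℝ
  {p | ∃ (j d : ℕ) (h : Po m), h.IsHomogeneous d ∧ lap _ h = 0 ∧ 2 * j + d = k ∧ p = sq2 m ^ j * h}

lemma mem_W (hm : 0 < m) (k : ℕ) : ∀ p : Po m, p.IsHomogeneous k → p ∈ W m k := by
  induction k using Nat.strong_induction_on with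
  | _ k ih =>
    intro p hp
    by_cases hk : k ≤ 1
    · exact Submodule.subset_span ⟨0, k, p, hp, lap_low hk hp, by simp, by simp⟩
    obtain ⟨k, rfl⟩ : ∃ l, k = l + 2 := ⟨k - 2, by omega⟩
    have h1 : ∀ q ∈ W m k, ∃ r ∈ W m (k + 2), r.IsHomogeneous (k + 2) ∧ lap _ r = q := by
      intro q hq
      induction hq using Submodule.span_induction with
      | mem q hq =>
        obtain ⟨j, d, h, h1, h2, h3, rfl⟩ := hq
        obtain ⟨c, hc, e⟩ := lap_sq2_pow hm h1 h2 j
        refine ⟨c⁻¹ • (sq2 m ^ (j + 1) * h), Submodule.smul_mem _ _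
          (Submodule.subset_span ⟨j + 1, d, h, h1, h2, by omega, rfl⟩), ?_, ?_⟩
        · have := (sq2_homog.pow (j + 1)).mul h1
          rw [show 2 * (j + 1) + d = k + 2 by omega] at this
          exact (homogeneousSubmodule _ ℝ _).smul_mem _ this
        · rw [map_smul, e, smul_smul, inv_mul_cancel₀ hc.ne', one_smul]
      | zero => exact ⟨0, Submodule.zero_mem _, isHomogeneous_zero _ _ _, map_zero _⟩
      | add a b _ _ ha hb =>
        obtain ⟨r, r1, r2, r3⟩ := ha
        obtain ⟨s, s1, s2, s3⟩ := hb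
        exact ⟨r + s, Submodule.add_mem _ r1 s1, r2.add s2, by rw [map_add, r3, s3]⟩
      | smul c a _ ha =>
        obtain ⟨r, r1, r2, r3⟩ := ha
        exact ⟨c • r, Submodule.smul_mem _ _ r1, (homogeneousSubmodule _ ℝ _).smul_mem _ r2,
          by rw [map_smul, r3]⟩
    obtain ⟨r, r1, r2, r3⟩ := h1 _ (ih k (by omega) _ (lap_homog hp))
    rw [← sub_add_cancel p r]
    exact Submodule.add_mem _ (Submodule.subset_span ⟨0, k + 2, p - r, hp.sub r2,
      by rw [map_sub, r3, sub_self], by simp, by simp⟩) r1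

lemma complete (hm : 0 < m) {F : E m → ℝ} (hF : Sm F)
    (hs : ∀ t : ℝ, 0 < t → ∀ x, F (t • x) = F x)
    (h : ∀ (k : ℕ) (p : Po m), p.IsHomogeneous k → lap _ p = 0 → B F (N p) = 0) {x : E m}
    (hx : x ≠ 0) : F x = 0 := by
  let L : Po m →ₗ[ℝ] ℝ :=
    { toFun := fun p => B F (N p)
      map_add' := fun p q => by rw [map_add, B_add hF (N_sm p) (N_sm q)]
      map_smul' := fun c p => by rw [map_smul, B_smul]; rfl }
  have h1 : ∀ k, W m k ≤ LinearMap.ker L := fun k => Submodule.span_le.2 (by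
    rintro _ ⟨j, d, p, h1, h2, -, rfl⟩
    have : N (sq2 m ^ j * p) = N p := by
      induction j with
      | zero => simp
      | succ j ih => rw [pow_succ', mul_assoc, N_sq2, ih]
    change B F (N _) = 0
    rw [this]; exact h d p h1 h2)
  have h2 : ∀ p, L p = 0 := fun p => by
    rw [← sum_homogeneousComponent p, map_sum]
    exact Finset.sum_eq_zero fun k _ => h1 k (mem_W hm k _ (homogeneousComponent_isHomogeneous k p))
  have h3 : B F F ≤ 0 := B_dense hF fun ε hε => by
    let φ : Po m →ₐ[ℝ] C(Metric.sphere (0 : E m) 1, ℝ) :=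
      aeval fun i => ⟨fun x => x.1 i, by fun_prop⟩
    have hφ : ∀ p x, φ p x = ev p x.1 := by
      intro p x
      induction p using MvPolynomial.induction_on with
      | C a => simp [φ, ev]
      | add p q hp hq => rw [map_add, ContinuousMap.add_apply, hp, hq]; simp [ev]
      | mul_X p i hp => rw [map_mul, ContinuousMap.mul_apply, hp]; simp [φ, ev]
    obtain ⟨⟨_, p, rfl⟩, hp⟩ := ContinuousMap.exists_mem_subalgebra_near_continuous_of_separatesPoints
      φ.range (by
        intro x y hxy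
        obtain ⟨i, hi⟩ : ∃ i, x.1 i ≠ y.1 i := by
          by_contra hne
          push Not at hne
          exact hxy (Subtype.ext (PiLp.ext hne))
        exact ⟨φ (X i), ⟨φ (X i), ⟨X i, rfl⟩, rfl⟩, by simpa [φ] using hi⟩)
      (fun x => F x.1) ((ContDiffOn.continuousOn hF).comp_continuous continuous_subtype_val
        (fun x h0 => by have := x.2; simp [mem_singleton_iff.1 h0] at this)) ε hε
    refine ⟨N p, N_sm p, h2 p, fun y hy => ?_⟩
    have h4 : ‖‖y‖⁻¹ • y‖ = 1 := norm_smul_inv_norm hy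
    have h5 := hp ⟨‖y‖⁻¹ • y, by simpa using h4⟩
    rw [N_apply p hy, ← hs _ (inv_pos.2 (norm_pos_iff.2 hy)) y, abs_sub_comm]
    rw [← hφ p ⟨‖y‖⁻¹ • y, by simpa using h4⟩]
    exact h5.le
  rw [← hs _ (inv_pos.2 (norm_pos_iff.2 hx)) x]
  exact B_self hF h3 (norm_smul_inv_norm hx)

lemma harm_orth {F : E m → ℝ} (hF : Sm F) (hs : ∀ t : ℝ, 0 < t → ∀ x, F (t • x) = F x) {c : ℝ}
    (hc : ∀ x, ‖x‖ = 1 → Laplacian.laplacian F x = -c * F x) {k : ℕ} (hk : c ≠ lam m k) {p : Po m}
    (hp : p.IsHomogeneous k) (hl : lap _ p = 0) : B F (N p) = 0 :=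
  orth hF (N_sm p) (fun _ hx => euler_zero hF hs hx)
    (fun _ hx => euler_zero (N_sm p) (N_scale p) hx) (fun _ hx => eig_all hF hs hc hx)
    (fun _ hx => N_lap hp hl hx) hk

lemma N_eig {p : Po m} {k : ℕ} (hp : p.IsHomogeneous k) (hl : lap _ p = 0) (x : E m)
    (hx : ‖x‖ = 1) : Laplacian.laplacian (N p) x = -lam m k * N p x := by
  have h0 : x ≠ 0 := by rintro rfl; simp at hx
  rw [lap_eq (N_sm p) h0, N_lap hp hl h0, hx]; simp

lemma eig_bot (hm : 0 < m) (Γ : Subgroup (O m)) {c : ℝ} (hc : ∀ k, c ≠ lam m k) :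
    eigenspace Γ c = ⊥ := by
  refine (Submodule.eq_bot_iff _).2 ?_
  rintro F ⟨a1, a2, a3, -, a5⟩
  funext x
  by_cases hx : x = 0
  · rw [hx, a1]; rfl
  · exact complete hm a3 a2 (fun k p hp hl => harm_orth a3 a2 a5 (hc k) hp hl) hx

lemma eig_harm (hm : 2 ≤ m) {k : ℕ} {F : E m → ℝ} (hF : F ∈ eigenspace ⊥ (lam m k)) :
    ∃ p : Po m, p.IsHomogeneous k ∧ lap _ p = 0 ∧ N p = F := by
  let V := homogeneousSubmodule (Fin m) ℝ k ⊓ LinearMap.ker (lap (Fin m))
  let T : V →ₗ[ℝ] Module.Dual ℝ V := LinearMap.mk₂ ℝ (fun p q => B (N p.1) (N q.1))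
    (fun p q r => by
      rw [B_comm, Submodule.coe_add, map_add, B_add (N_sm _) (N_sm _) (N_sm _), B_comm,
        B_comm (N r.1)])
    (fun c p q => by rw [B_comm, Submodule.coe_smul, map_smul, B_smul, B_comm]; rfl)
    (fun p q r => by rw [Submodule.coe_add, map_add, B_add (N_sm _) (N_sm _) (N_sm _)])
    (fun c p q => by rw [Submodule.coe_smul, map_smul, B_smul]; rfl)
  have hT : Function.Injective T := (injective_iff_map_eq_zero T).2 fun p hp =>
    Subtype.ext (N_inj (by omega) p.2.1 fun x hx =>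
      B_self (N_sm _) (LinearMap.congr_fun hp p).le hx)
  have hT' := (LinearMap.injective_iff_surjective_of_finrank_eq_finrank
    (Subspace.dual_finrank_eq (K := ℝ) (V := V)).symm).1 hT
  have a3 : Sm F := hF.2.2.1
  obtain ⟨p, hp⟩ := hT'
    { toFun := fun q => B F (N q.1)
      map_add' := fun p q => by rw [Submodule.coe_add, map_add, B_add a3 (N_sm _) (N_sm _)]
      map_smul' := fun c p => by rw [Submodule.coe_smul, map_smul, B_smul]; rfl }
  have h1 : N p.1 ∈ eigenspace ⊥ (lam m k) := ⟨N_zero _, N_scale _, N_sm _,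
    fun g hg x => by rw [Subgroup.mem_bot.1 hg]; rfl, N_eig p.2.1 p.2.2⟩
  obtain ⟨b1, b2, b3, -, b5⟩ := Submodule.sub_mem _ hF h1
  refine ⟨p.1, p.2.1, p.2.2, (sub_eq_zero.1 (_root_.funext fun x => ?_)).symm⟩
  by_cases hx : x = 0
  · rw [hx, b1]; rfl
  refine complete (by omega) b3 b2 (fun l q hq hl => ?_) hx
  by_cases hkl : k = l
  · subst hkl
    rw [B_comm, B_sub (N_sm _) a3 (N_sm _), B_comm, B_comm (N q), sub_eq_zero]
    exact (LinearMap.congr_fun hp ⟨q, hq, hl⟩).symm
  · exact harm_orth b3 b2 b5 (fun h => hkl (lam_inj hm h)) hq hl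

/-- Orthogonal matrices as isometries. -/
noncomputable def rho (m : ℕ) : Matrix.orthogonalGroup (Fin m) ℝ ≃* O m :=
  (Unitary.mapEquiv
    (StarMulEquiv.ofClass (Matrix.toEuclideanCLM (n := Fin m) (𝕜 := ℝ)))).toMulEquiv.trans
    Unitary.linearIsometryEquiv

lemma rho_apply (g : Matrix.orthogonalGroup (Fin m) ℝ) (x : E m) :
    (rho m g x).ofLp = (g : Matrix (Fin m) (Fin m) ℝ).mulVec x.ofLp := rfl

lemma ev_sub (g : Matrix.orthogonalGroup (Fin m) ℝ) (p : Po m) (x : E m) :
    ev (sub (g : Matrix (Fin m) (Fin m) ℝ) p) x = ev p (rho m g x) := by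
  induction p using MvPolynomial.induction_on with
  | C a => simp [ev, sub]
  | add p q hp hq => simp only [ev, map_add] at *; rw [hp, hq]
  | mul_X p i hp =>
    simp only [ev, map_mul, eval_X, sub_X, map_sum, smul_eval] at *
    rw [hp, rho_apply]; rfl

lemma N_sub (g : Matrix.orthogonalGroup (Fin m) ℝ) (p : Po m) (x : E m) :
    N (sub (g : Matrix (Fin m) (Fin m) ℝ) p) x = N p (rho m g x) := by
  by_cases hx : x = 0
  · rw [hx, map_zero, N_zero, N_zero]
  · rw [N_apply _ hx, N_apply _ (by simpa using hx), ev_sub, map_smul,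
      LinearIsometryEquiv.norm_map]

theorem rank_eig (hm : 2 ≤ m) (Γ : Subgroup (O m)) (k : ℕ) :
    Module.rank ℝ (eigenspace Γ (lam m k)) = dk (Γ.comap (rho m).toMonoidHom) k := by
  set A := homogeneousSubmodule (Fin m) ℝ k ⊓ LinearMap.ker (lap (Fin m))
    ⊓ fixd (Γ.comap (rho m).toMonoidHom) with hA
  have h1 : eigenspace Γ (lam m k) = LinearMap.range (N.domRestrict A) := by
    rw [LinearMap.range_domRestrict]
    apply le_antisymm
    · rintro F ⟨a1, a2, a3, a4, a5⟩
      obtain ⟨p, h1, h2, rfl⟩ := eig_harm hm (k := k) (F := F)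
        ⟨a1, a2, a3, fun g hg x => by rw [Subgroup.mem_bot.1 hg]; rfl, a5⟩
      refine ⟨p, ⟨⟨h1, h2⟩, (mem_fixd _ _).2 fun g hg => sub_eq_zero.1
        (N_inj (by omega) ((sub_homog _ h1).sub h1) fun x _ => ?_)⟩, rfl⟩
      rw [map_sub, Pi.sub_apply, N_sub, a4 (rho m g) hg, sub_self]
    · rintro _ ⟨p, ⟨⟨h1, h2⟩, h3⟩, rfl⟩
      refine ⟨N_zero _, N_scale _, N_sm _, fun g hg x => ?_, N_eig h1 h2⟩
      obtain ⟨g, rfl⟩ := (rho m).surjective g
      rw [← N_sub, (mem_fixd _ _).1 h3 g hg]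
  have h2 : Function.Injective (N.domRestrict A) := (injective_iff_map_eq_zero _).2 fun p hp =>
    Subtype.ext (N_inj (by omega) p.2.1.1 fun x _ => congrFun hp x)
  have : Module.Finite ℝ A := Submodule.finiteDimensional_of_le (inf_le_left.trans inf_le_left)
  rw [h1, ← (LinearEquiv.ofInjective _ h2).rank_eq, dk, Module.finrank_eq_rank]

theorem isospectral_iff (hm : 2 ≤ m) (Γ₁ Γ₂ : Subgroup (O m)) : Isospectral Γ₁ Γ₂ ↔
    ∀ k, dk (Γ₁.comap (rho m).toMonoidHom) k = dk (Γ₂.comap (rho m).toMonoidHom) k := by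
  constructor
  · intro h k
    have := h (lam m k)
    rw [rank_eig hm, rank_eig hm] at this
    exact_mod_cast this
  · intro h c
    by_cases hc : ∃ k, c = lam m k
    · obtain ⟨k, rfl⟩ := hc
      rw [rank_eig hm, rank_eig hm, h]
    · push Not at hc
      rw [eig_bot (by omega) _ hc, eig_bot (by omega) _ hc]

end Pool.Agent.P.MP_13d552_gt.H
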